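import Pool.Agent.V5helper49.LR.Stm2

/-!
# Project LR, jobs CHB and EMP
-/

set_option autoImplicit false

namespace Pool.Agent.V5helper34.LR

open Finset
open Pool.Agent.V5helper42.RS (EE S PP EE_add EE_mul_const EE_const EE_mono EE_congr S_cons S_nil PP_nonneg)
open Pool.Agent.V5helper49.LR

lemma EE_sum {ι : Type*} (l : List ℕ) (hl : ∀ p ∈ l, 0 < p) (s : Finset ι) (F : ι → (ℕ → ℕ) → ℝ) (ρ : ℕ → ℕ) :
    EE l (fun σ => ∑ i ∈ s, F i σ) ρ = ∑ i ∈ s, EE l (F i) ρ := by
  classical
  induction s using Finset.induction_on with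
  | empty => simpa using EE_const l hl 0 ρ
  | insert a s ha ih =>
    rw [sum_insert ha, ← ih, ← EE_add]
    congr 1
    funext σ
    rw [sum_insert ha]

lemma sq_sum (a : ℕ → ℝ) (N : ℕ) :
    (∑ s ∈ range N, a s) ^ 2 = ∑ s ∈ range N, a s ^ 2 + 2 * ∑ s ∈ range N, ∑ s' ∈ range s, a s * a s' := by
  induction N with
  | zero => simp
  | succ n ih =>
    rw [sum_range_succ, sum_range_succ, sum_range_succ, add_sq, ih, ← mul_sum]
    ring

theorem t_CHB : S_CHB := by
  intro l hl ρ N f r η hr hN h1 h2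
  have hN0 : (0 : ℝ) < N := by exact_mod_cast hN
  have hNr : (0 : ℝ) < N * r := mul_pos hN0 hr
  set c : ℝ := 1 / (N * r) with hc
  let a : ℕ → (ℕ → ℕ) → ℝ := fun s σ => open Classical in if f s σ then 1 else 0
  let b : ℕ → ℕ → (ℕ → ℕ) → ℝ := fun s s' σ => open Classical in if f s σ ∧ f s' σ then 1 else 0
  have key : ∀ σ, (c * (∑ s ∈ range N, a s σ) - 1) ^ 2 =
      (((c ^ 2 * ∑ s ∈ range N, a s σ) + (2 * c ^ 2) * ∑ s ∈ range N, ∑ s' ∈ range s, b s s' σ) +
        (-(2 * c)) * ∑ s ∈ range N, a s σ) + 1 := by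
    intro σ
    have e1 : (∑ s ∈ range N, a s σ) ^ 2 =
        ∑ s ∈ range N, a s σ + 2 * ∑ s ∈ range N, ∑ s' ∈ range s, b s s' σ := by
      rw [sq_sum]
      congr 1
      · apply sum_congr rfl
        intro s _
        simp only [a]
        split_ifs <;> norm_num
      · congr 1
        apply sum_congr rfl
        intro s _
        apply sum_congr rfl
        intro s' _
        simp only [a, b]
        by_cases h : f s σ <;> by_cases h' : f s' σ <;> simp [h, h']
    have e2 : (c * (∑ s ∈ range N, a s σ) - 1) ^ 2 =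
        c ^ 2 * (∑ s ∈ range N, a s σ) ^ 2 + (-(2 * c)) * ∑ s ∈ range N, a s σ + 1 := by ring
    rw [e2, e1]
    ring
  have hle : EE l (fun σ => open Classical in if ∀ s < N, ¬ f s σ then 1 else 0) ρ ≤
      EE l (fun σ => (c * (∑ s ∈ range N, a s σ) - 1) ^ 2) ρ := by
    apply EE_mono
    intro σ _ _
    by_cases h : ∀ s < N, ¬ f s σ
    · have hz : ∑ s ∈ range N, a s σ = 0 := by
        apply sum_eq_zero
        intro s hs
        simp only [a]
        rw [if_neg (h s (mem_range.1 hs))]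
      rw [hz, if_pos h]
      norm_num
    · rw [if_neg h]
      positivity
  refine le_trans (le_of_eq ?_) (hle.trans ?_)
  · congr 1
  have hA : EE l (fun σ => ∑ s ∈ range N, a s σ) ρ = N * r := by
    rw [EE_sum l hl]
    rw [sum_congr rfl (fun s hs => ?_), sum_const, card_range, nsmul_eq_mul]
    exact h1 s (mem_range.1 hs)
  have hB : 2 * EE l (fun σ => ∑ s ∈ range N, ∑ s' ∈ range s, b s s' σ) ρ ≤ (N : ℝ) ^ 2 * r ^ 2 * (1 + η) := by
    rw [EE_sum l hl]
    refine le_trans (le_of_eq ?_) h2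
    congr 1
    apply sum_congr rfl
    intro s _
    rw [EE_sum l hl]
  have hE : EE l (fun σ => (c * (∑ s ∈ range N, a s σ) - 1) ^ 2) ρ =
      ((c ^ 2 * EE l (fun σ => ∑ s ∈ range N, a s σ) ρ +
        (2 * c ^ 2) * EE l (fun σ => ∑ s ∈ range N, ∑ s' ∈ range s, b s s' σ) ρ) +
        (-(2 * c)) * EE l (fun σ => ∑ s ∈ range N, a s σ) ρ) + 1 := by
    have : (fun σ => (c * (∑ s ∈ range N, a s σ) - 1) ^ 2) =
        fun σ => (((c ^ 2 * ∑ s ∈ range N, a s σ) + (2 * c ^ 2) * ∑ s ∈ range N, ∑ s' ∈ range s, b s s' σ) +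
        (-(2 * c)) * ∑ s ∈ range N, a s σ) + 1 := funext key
    rw [this, EE_add l (fun σ => ((c ^ 2 * ∑ s ∈ range N, a s σ) + (2 * c ^ 2) * ∑ s ∈ range N, ∑ s' ∈ range s, b s s' σ) +
        (-(2 * c)) * ∑ s ∈ range N, a s σ) (fun _ => 1) ρ,
      EE_add l (fun σ => (c ^ 2 * ∑ s ∈ range N, a s σ) + (2 * c ^ 2) * ∑ s ∈ range N, ∑ s' ∈ range s, b s s' σ)
        (fun σ => (-(2 * c)) * ∑ s ∈ range N, a s σ) ρ,
      EE_add l (fun σ => c ^ 2 * ∑ s ∈ range N, a s σ) (fun σ => (2 * c ^ 2) * ∑ s ∈ range N, ∑ s' ∈ range s, b s s' σ) ρ,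
      EE_mul_const, EE_mul_const, EE_mul_const, EE_const l hl]
  rw [hE, hA]
  have hc2 : c ^ 2 * ((N : ℝ) ^ 2 * r ^ 2 * (1 + η)) = 1 + η := by
    rw [hc]; field_simp
  have hc1 : c ^ 2 * (N * r) = c := by
    rw [hc]; field_simp
  have hc0 : c * (N * r) = 1 := by
    rw [hc]; field_simp
  have h3 : c ^ 2 * (2 * EE l (fun σ => ∑ s ∈ range N, ∑ s' ∈ range s, b s s' σ) ρ) ≤ 1 + η :=
    (mul_le_mul_of_nonneg_left hB (sq_nonneg c)).trans hc2.le
  nlinarith [h3, hc1, hc0]

/-! ### EMP -/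

lemma bern (s t : ℝ) (hs : 0 ≤ s) (ht : 0 ≤ t) (a : ℕ) :
    s ^ (a + 1) + (a + 1) * s ^ a * t ≤ (s + t) ^ (a + 1) := by
  induction a with
  | zero => simp
  | succ n ih =>
    have h1 : (s + t) ^ (n + 1 + 1) = (s + t) ^ (n + 1) * (s + t) := pow_succ _ _
    rw [h1]
    have h2 : (s ^ (n + 1) + (n + 1) * s ^ n * t) * (s + t) ≤ (s + t) ^ (n + 1) * (s + t) :=
      mul_le_mul_of_nonneg_right ih (add_nonneg hs ht)
    refine le_trans ?_ h2
    have h3 : 0 ≤ ((n : ℝ) + 1) * s ^ n * t * t := by positivity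
    have h4 : (s ^ (n + 1) + (n + 1) * s ^ n * t) * (s + t) =
        s ^ (n + 1 + 1) + ((n + 1 : ℕ) + 1) * s ^ (n + 1) * t + ((n : ℝ) + 1) * s ^ n * t * t := by
      push_cast; ring
    rw [h4]
    linarith

lemma card_fib_le_one (m y p r : ℕ) (hp : y < p) (A : Finset ℕ) (hA : A ⊆ Ioc m (m + y)) :
    (A.filter (fun n => n % p = r)).card ≤ 1 := by
  rw [card_le_one]
  intro n hn n' hn'
  rw [mem_filter] at hn hn'
  have h1 := mem_Ioc.1 (hA hn.1)
  have h2 := mem_Ioc.1 (hA hn'.1)
  have h3 : n % p = n' % p := hn.2.trans hn'.2.symm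
  rcases le_total n n' with h | h
  · have h4 : p ∣ n' - n := (Nat.modEq_iff_dvd' h).1 h3
    have h5 : n' - n < p := by omega
    have := Nat.eq_zero_of_dvd_of_lt h4 h5
    omega
  · have h4 : p ∣ n - n' := (Nat.modEq_iff_dvd' h).1 h3.symm
    have h5 : n - n' < p := by omega
    have := Nat.eq_zero_of_dvd_of_lt h4 h5
    omega

lemma emp_gen (m y : ℕ) (u : ℝ) (hu : 0 ≤ u) (hu1 : u ≤ 1) : ∀ l : List ℕ, l.Nodup → (∀ p ∈ l, y < p) →
    ∀ (A : Finset ℕ), A ⊆ Ioc m (m + y) → ∀ ρ : ℕ → ℕ,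
    EE l (fun σ => (1 - u) ^ (S σ l A).card) ρ ≤ (1 - u * PP l) ^ A.card := by
  intro l
  induction l with
  | nil =>
    intro _ _ A _ ρ
    simp [EE, S_nil, PP]
  | cons p l ih =>
    intro hnd hpl A hA ρ
    have hp : y < p := hpl p (by simp)
    have hp0 : (0 : ℝ) < p := by exact_mod_cast (by omega : 0 < p)
    have hpl' : ∀ q ∈ l, y < q := fun q hq => hpl q (List.mem_cons_of_mem _ hq)
    have hnl : p ∉ l := (List.nodup_cons.1 hnd).1
    have hnd' : l.Nodup := (List.nodup_cons.1 hnd).2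
    obtain ⟨hP0, hP1⟩ := PP_nonneg l (fun q hq => by have := hpl' q hq; omega)
    set v : ℝ := u * PP l with hv
    have hv0 : 0 ≤ v := mul_nonneg hu hP0
    have hv1 : v ≤ 1 := mul_le_one₀ hu1 hP0 hP1
    have hPP : u * PP (p :: l) = v * (1 - 1 / p) := by
      rw [hv]; simp only [PP, List.map_cons, List.prod_cons]; ring
    rw [hPP]
    simp only [EE]
    have hstep : ∀ r ∈ range p, EE l (fun σ => (1 - u) ^ (S σ (p :: l) A).card) (Function.update ρ p r) ≤
        (1 - v) ^ (A.filter (fun n => n % p ≠ r)).card := by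
      intro r _
      have h1 : EE l (fun σ => (1 - u) ^ (S σ (p :: l) A).card) (Function.update ρ p r) =
          EE l (fun σ => (1 - u) ^ (S σ l (A.filter (fun n => n % p ≠ r))).card) (Function.update ρ p r) := by
        apply EE_congr
        intro σ hσ _
        have h2 : σ p = r := by rw [hσ p hnl]; simp
        rw [S_cons, h2]
      rw [h1]
      exact ih hnd' hpl' _ ((filter_subset _ _).trans hA) _
    refine le_trans (mul_le_mul_of_nonneg_left (sum_le_sum hstep) (by positivity)) ?_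
    rcases Nat.eq_zero_or_pos A.card with h0 | h0
    · have hAe : A = ∅ := card_eq_zero.1 h0
      subst hAe
      simp [hp0.ne']
    · obtain ⟨a, ha⟩ : ∃ a, A.card = a + 1 := ⟨A.card - 1, by omega⟩
      have hterm : ∀ r ∈ range p, (1 - v) ^ (A.filter (fun n => n % p ≠ r)).card =
          (1 - v) ^ (a + 1) + ((A.filter (fun n => n % p = r)).card : ℝ) * (v * (1 - v) ^ a) := by
        intro r _
        have h1 := card_fib_le_one m y p r hp A hA
        have h2 : (A.filter (fun n => n % p = r)).card + (A.filter (fun n => ¬ n % p = r)).card = A.card :=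
          card_filter_add_card_filter_not _
        rcases Nat.le_one_iff_eq_zero_or_eq_one.1 h1 with h3 | h3
        · have h4 : (A.filter (fun n => n % p ≠ r)).card = a + 1 := by
            show (A.filter (fun n => ¬ n % p = r)).card = a + 1
            omega
          rw [h4, h3]; simp
        · have h4 : (A.filter (fun n => n % p ≠ r)).card = a := by
            show (A.filter (fun n => ¬ n % p = r)).card = a
            omega
          rw [h4, h3]; push_cast; ring
      rw [sum_congr rfl hterm, sum_add_distrib, sum_const, card_range, nsmul_eq_mul, ← sum_mul]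
      have hsum : ∑ r ∈ range p, ((A.filter (fun n => n % p = r)).card : ℝ) = a + 1 := by
        have h1 : A.card = ∑ r ∈ range p, (A.filter (fun n => n % p = r)).card :=
          card_eq_sum_card_fiberwise (fun n _ => by
            have := Nat.mod_lt n (show 0 < p by omega)
            simpa using this)
        rw [ha] at h1
        have h2 : ((a + 1 : ℕ) : ℝ) = ((∑ r ∈ range p, (A.filter (fun n => n % p = r)).card : ℕ) : ℝ) := by rw [← h1]
        push_cast at h2
        exact h2.symm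
      rw [hsum, ha]
      have hb := bern (1 - v) (v / p) (by linarith) (by positivity) a
      have e1 : 1 / (p : ℝ) * (p * (1 - v) ^ (a + 1) + (a + 1) * (v * (1 - v) ^ a)) =
          (1 - v) ^ (a + 1) + (a + 1) * (1 - v) ^ a * (v / p) := by
        field_simp
      have e2 : 1 - v * (1 - 1 / p) = (1 - v) + v / p := by
        field_simp
        ring
      rw [e1, e2]
      exact hb

theorem t_EMP : S_EMP := by
  intro m y l hnd hl A hA ρ
  have h := emp_gen m y 1 zero_le_one le_rfl l hnd hl A hA ρ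
  rw [one_mul] at h
  refine le_trans (le_of_eq ?_) h
  apply EE_congr
  intro σ _ _
  by_cases hS : S σ l A = ∅
  · simp [hS]
  · have : (S σ l A).card ≠ 0 := by rwa [Ne, card_eq_zero]
    simp [hS, this]

end Pool.Agent.V5helper34.LR
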