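import Pool.Agent.V5helper49.LR.Stm2

/-!
# Project LR, job FIX
-/

set_option autoImplicit false

namespace Pool.Agent.V5helper34.LR

open Finset Filter
open Pool.Agent.V5helper42.RS (EE)
open Pool.Agent.V5helper49.LR

lemma ev_aux (ε : ℝ) (hε : 0 < ε) : ∀ᶠ L : ℝ in atTop, 81 ≤ L ∧
    Real.exp (-(L / 4)) * Real.exp (L ^ (1 - ε / 3)) ≤ L ^ (-(1 / 2) : ℝ) := by
  have h1 : ∀ᶠ L : ℝ in atTop, L ^ (-(ε / 3)) ≤ 1 / 8 :=
    (tendsto_rpow_neg_atTop (by positivity : 0 < ε / 3)).eventually_le_const (by norm_num)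
  have h2 : ∀ᶠ L : ℝ in atTop, Real.log L ≤ 1 / 4 * L := by
    have := (Real.isLittleO_log_id_atTop).bound (show (0 : ℝ) < 1 / 4 by norm_num)
    filter_upwards [this, eventually_ge_atTop 1] with L hL h1L
    have h3 : |Real.log L| ≤ 1 / 4 * |L| := by simpa using hL
    rw [abs_of_nonneg (by linarith : (0 : ℝ) ≤ L)] at h3
    exact (le_abs_self _).trans h3
  filter_upwards [h1, h2, eventually_ge_atTop 81] with L h1L h2L hL
  refine ⟨hL, ?_⟩
  have hL0 : 0 < L := by linarith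
  have e1 : L ^ (1 - ε / 3) = L * L ^ (-(ε / 3)) := by
    rw [sub_eq_add_neg, Real.rpow_add hL0, Real.rpow_one]
  have e2 : L ^ (1 - ε / 3) ≤ L / 8 := by
    rw [e1]
    have := mul_le_mul_of_nonneg_left h1L hL0.le
    linarith
  have e3 : L ^ (-(1 / 2) : ℝ) = Real.exp (Real.log L * (-(1 / 2))) := Real.rpow_def_of_pos hL0 _
  rw [← Real.exp_add, e3]
  apply Real.exp_le_exp.2
  linarith

lemma card_z1 (X : ℕ) (T : Finset ℕ) (hL : 81 ≤ Real.log X) (hT : (T.card : ℝ) ≤ Real.log X ^ (1 / 50 : ℝ)) :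
    2 * T.card ≤ z1 X := by
  set L := Real.log X with hLdef
  have h1 : L ^ (1 / 50 : ℝ) ≤ L ^ (1 / 2 : ℝ) := Real.rpow_le_rpow_of_exponent_le (by linarith) (by norm_num)
  rw [← Real.sqrt_eq_rpow] at h1
  have h2 : (9 : ℝ) ≤ Real.sqrt L := by
    have : Real.sqrt 81 = 9 := by
      rw [show (81 : ℝ) = 9 ^ 2 by norm_num]; exact Real.sqrt_sq (by norm_num)
    rw [← this]; exact Real.sqrt_le_sqrt hL
  have h3 : Real.sqrt L * Real.sqrt L = L := Real.mul_self_sqrt (by linarith)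
  have h4 : 2 * Real.sqrt L ≤ L / 4 - 1 := by nlinarith
  have h5 : L / 4 - 1 < z1 X := Nat.sub_one_lt_floor _
  have h6 : (2 * (T.card : ℝ)) < z1 X + 0 := by linarith
  have h7 : ((2 * T.card : ℕ) : ℝ) < (z1 X : ℝ) := by push_cast; linarith
  exact (by exact_mod_cast h7.le)

theorem t_FIX (hEEJ : S_EEJ) (hCHB : S_CHB) (hMAS : S_MAS) (hRHO : S_RHO) (hJNT : S_JNT) (hAVG : S_AVG) : S_FIX := by
  intro ε hε hε1
  obtain ⟨X1, hX1⟩ := hMAS ε hε hε1
  obtain ⟨X2, hX2⟩ := hRHO ε hε hε1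
  obtain ⟨X3, hX3⟩ := hAVG ε hε hε1
  have hlog : Tendsto (fun X : ℕ => Real.log (X : ℝ)) atTop atTop :=
    Real.tendsto_log_atTop.comp tendsto_natCast_atTop_atTop
  obtain ⟨X4, hX4⟩ := eventually_atTop.1 (hlog.eventually (ev_aux ε hε))
  refine ⟨max (max X1 X2) (max X3 (max X4 1)), ?_⟩
  intro X hX H T hH hT hTc Q N hHQ hQ hN hQN n₀ ρ
  have hXX1 : X1 ≤ X := by omega
  have hXX2 : X2 ≤ X := by omega
  have hXX3 : X3 ≤ X := by omega
  have hXX4 : X4 ≤ X := by omega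
  have hX1' : 1 ≤ X := by omega
  obtain ⟨hL81, hLexp⟩ := hX4 X hXX4
  have hX0 : (0 : ℝ) < X := by exact_mod_cast hX1'
  have hN0 : (0 : ℝ) < N := lt_of_lt_of_le (Real.rpow_pos_of_pos hX0 _) hN
  have hN1 : 1 ≤ N := by exact_mod_cast hN0
  have hL0 : 0 < Real.log X := by linarith
  set V := range (H + 1) \ T with hV
  set B := Bs ε X with hB
  set l := (QQ X).toList with hl
  have hlp : ∀ p ∈ l, p ∈ QQ X := fun p hp => mem_toList.1 hp
  have hlpos : ∀ p ∈ l, 0 < p := fun p hp => (mem_filter.1 (hlp p hp)).2.pos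
  have hnd : l.Nodup := nodup_toList _
  have hdisj : Disjoint T V := disjoint_sdiff
  set r := A1 T V B l ∅ with hr
  have hrge : Real.exp (-Real.log X ^ (1 - ε / 3)) ≤ r :=
    hX2 X hXX2 H T V hH hT sdiff_subset hdisj hTc
  have hr0 : 0 < r := lt_of_lt_of_le (Real.exp_pos _) hrge
  set η : ℝ := 2 * Real.log X ^ (-(1 / 2) : ℝ) with hη
  have hcT : 2 * T.card ≤ z1 X := card_z1 X T hL81 hTc
  -- the pairs
  have hpair : ∀ s < N, ∀ s' < s, EE l (fun σ => open Classical in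
      if Ok T V B l (n₀ + Q * s) σ ∧ Ok T V B l (n₀ + Q * s') σ then 1 else 0) ρ ≤
      (∏ p ∈ QQ X, (1 + cc T B H (Q * (s - s')) p)) * r ^ 2 := by
    intro s hs s' hs'
    have hD1 : H < Q * (s - s') := by
      have : 1 ≤ s - s' := by omega
      calc H < Q := hHQ
        _ = Q * 1 := (mul_one _).symm
        _ ≤ Q * (s - s') := Nat.mul_le_mul_left _ this
    have hD2 : Q * (s - s') ≤ X := le_trans (Nat.mul_le_mul_left _ (by omega : s - s' ≤ N)) hQN
    obtain ⟨m1, _, _, _, m5⟩ := hX1 X hXX1 H (Q * (s - s')) hH hD1 hD2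
    have hReg : Reg T V B H (ww X) :=
      { T_le := fun t ht => by have := mem_range.1 (hT ht); omega
        V_le := fun v hv => by have := mem_range.1 (mem_sdiff.1 hv).1; omega
        disj := hdisj
        B_ge := fun p hp => by
          have := (mem_Ioc.1 (mem_filter.1 hp).1).1
          omega
        w_ge := m5 }
    have hj := hJNT T V B H (ww X) (Q * (s - s')) hReg l hnd hlpos (fun p hp _ => by
      have := (mem_Ioc.1 (mem_filter.1 (hlp p hp)).1).1
      omega) m1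
    have he := (hEEJ T V B l hnd hlpos ρ).2 (n₀ + Q * s') (Q * (s - s'))
    have hs2 : n₀ + Q * s' + Q * (s - s') = n₀ + Q * s := by
      rw [add_assoc, ← mul_add]
      congr 2
      omega
    rw [hs2] at he
    rw [← prod_map_toList (QQ X) (fun p => 1 + cc T B H (Q * (s - s')) p), he]
    exact hj
  have hsum : 2 * ∑ s ∈ range N, ∑ s' ∈ range s, EE l (fun σ => open Classical in
      if Ok T V B l (n₀ + Q * s) σ ∧ Ok T V B l (n₀ + Q * s') σ then 1 else 0) ρ ≤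
      (N : ℝ) ^ 2 * r ^ 2 * (1 + η) := by
    have h1 : ∀ s ∈ range N, ∑ s' ∈ range s, EE l (fun σ => open Classical in
        if Ok T V B l (n₀ + Q * s) σ ∧ Ok T V B l (n₀ + Q * s') σ then 1 else 0) ρ ≤
        (s + N * Real.log X ^ (-(1 / 2) : ℝ)) * r ^ 2 := by
      intro s hs
      have hsN := mem_range.1 hs
      refine le_trans (sum_le_sum fun s' hs' => hpair s hsN s' (mem_range.1 hs')) ?_
      rw [← sum_mul]
      apply mul_le_mul_of_nonneg_right _ (sq_nonneg r)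
      have h2 := hX3 X hXX3 H T hH hT hTc Q N s hHQ hQ hN hQN (by omega)
      refine le_trans (le_of_eq ?_) h2
      rw [← sum_range_reflect]
      apply sum_congr rfl
      intro j hj
      have hj' := mem_range.1 hj
      have : s - (s - 1 - j) = j + 1 := by omega
      rw [this]
    have h3 : ∑ s ∈ range N, ∑ s' ∈ range s, EE l (fun σ => open Classical in
        if Ok T V B l (n₀ + Q * s) σ ∧ Ok T V B l (n₀ + Q * s') σ then 1 else 0) ρ ≤
        ∑ s ∈ range N, ((s : ℝ) + N * Real.log X ^ (-(1 / 2) : ℝ)) * r ^ 2 := sum_le_sum h1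
    have h4 : ∑ s ∈ range N, ((s : ℝ) + N * Real.log X ^ (-(1 / 2) : ℝ)) * r ^ 2 =
        ((∑ s ∈ range N, (s : ℝ)) + N * (N * Real.log X ^ (-(1 / 2) : ℝ))) * r ^ 2 := by
      rw [← sum_mul, sum_add_distrib, sum_const, card_range, nsmul_eq_mul]
    have h5 : 2 * ∑ s ∈ range N, (s : ℝ) ≤ (N : ℝ) ^ 2 := by
      have : (∑ s ∈ range N, s) * 2 = N * (N - 1) := sum_range_id_mul_two N
      have h6 : ((∑ s ∈ range N, s : ℕ) : ℝ) * 2 = ((N * (N - 1) : ℕ) : ℝ) := by exact_mod_cast this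
      have h7 : ((N * (N - 1) : ℕ) : ℝ) ≤ ((N * N : ℕ) : ℝ) := by
        exact_mod_cast Nat.mul_le_mul_left _ (Nat.sub_le _ _)
      push_cast at h6 h7
      have h8 : ((N * (N - 1) : ℕ) : ℝ) ≤ (N : ℝ) * N := by
        have : N * (N - 1) ≤ N * N := Nat.mul_le_mul_left _ (Nat.sub_le _ _)
        exact_mod_cast this
      have h9 : (∑ s ∈ range N, (s : ℝ)) * 2 = ((N * (N - 1) : ℕ) : ℝ) := by
        have := congrArg (Nat.cast (R := ℝ)) (sum_range_id_mul_two N)
        push_cast at this ⊢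
        exact this
      nlinarith
    have hr2 : 0 ≤ r ^ 2 := sq_nonneg r
    calc 2 * ∑ s ∈ range N, ∑ s' ∈ range s, EE l (fun σ => open Classical in
        if Ok T V B l (n₀ + Q * s) σ ∧ Ok T V B l (n₀ + Q * s') σ then 1 else 0) ρ
        ≤ 2 * (((∑ s ∈ range N, (s : ℝ)) + N * (N * Real.log X ^ (-(1 / 2) : ℝ))) * r ^ 2) := by
          rw [← h4]; linarith
      _ = (2 * (∑ s ∈ range N, (s : ℝ)) + 2 * (N * (N * Real.log X ^ (-(1 / 2) : ℝ)))) * r ^ 2 := by ring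
      _ ≤ ((N : ℝ) ^ 2 + 2 * (N * (N * Real.log X ^ (-(1 / 2) : ℝ)))) * r ^ 2 := by
          apply mul_le_mul_of_nonneg_right _ hr2
          linarith
      _ = (N : ℝ) ^ 2 * r ^ 2 * (1 + η) := by rw [hη]; ring
  have hmain := hCHB l hlpos ρ N (fun s σ => Ok T V B l (n₀ + Q * s) σ) r η hr0 hN1
    (fun s _ => (hEEJ T V B l hnd hlpos ρ).1 (n₀ + Q * s)) hsum
  refine le_trans (le_of_eq ?_) (hmain.trans ?_)
  · rfl
  have hfin : 1 / (N * r) ≤ Real.log X ^ (-(1 / 2) : ℝ) := by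
    have h1 : Real.exp (Real.log X / 4) * Real.exp (-Real.log X ^ (1 - ε / 3)) ≤ N * r := by
      apply mul_le_mul _ hrge (Real.exp_pos _).le hN0.le
      refine le_trans (le_of_eq ?_) hN
      rw [Real.rpow_def_of_pos hX0]
      congr 1
      ring
    have h2 : 1 / (N * r) ≤ 1 / (Real.exp (Real.log X / 4) * Real.exp (-Real.log X ^ (1 - ε / 3))) :=
      one_div_le_one_div_of_le (mul_pos (Real.exp_pos _) (Real.exp_pos _)) h1
    refine h2.trans (le_trans (le_of_eq ?_) hLexp)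
    rw [one_div, mul_inv, ← Real.exp_neg, ← Real.exp_neg, neg_neg]
  have : (3 : ℝ) * Real.log X ^ (-(1 / 2) : ℝ) = η + Real.log X ^ (-(1 / 2) : ℝ) := by rw [hη]; ring
  rw [this]
  linarith

end Pool.Agent.V5helper34.LR
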